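import Pool.Agent.Helper70.KN.Goals

/-!
PROJECT KN, packet AL: alternating sum of a decreasing sequence.
-/

namespace Pool.Agent.Helper36.KN.AL

open Pool.Agent.Helper70.KN

theorem aux (T : ℕ → ℝ) (h0 : ∀ k, 0 ≤ T k) (h1 : ∀ k, 1 ≤ k → T (k + 1) ≤ T k) (m : ℕ) :
    T 0 - T 1 + T 2 - T 3 + (if Even (m + 3) then T (m + 3) else 0) ≤
      ∑ k ∈ Finset.range (m + 3 + 1), (-1) ^ k * T k := by
  induction m with
  | zero =>
    have h3 : ¬ Even (0 + 3) := by decide
    rw [if_neg h3]
    simp only [Finset.sum_range_succ, Finset.sum_range_zero]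
    apply le_of_eq
    ring
  | succ m ih =>
    rw [Finset.sum_range_succ]
    have e : m + 1 + 3 = m + 3 + 1 := by ring
    rw [e]
    by_cases h : Even (m + 3)
    · have h2 : ¬ Even (m + 3 + 1) := by
        rw [Nat.even_add_one]
        exact not_not.2 h
      rw [if_pos h] at ih
      rw [if_neg h2, (Nat.not_even_iff_odd.1 h2).neg_one_pow]
      have h4 := h1 (m + 3) (by omega)
      linarith
    · have h2 : Even (m + 3 + 1) := Nat.even_add_one.2 h
      rw [if_neg h] at ih
      rw [if_pos h2, h2.neg_one_pow]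
      linarith

theorem t : S_AL := by
  intro n T h0 h1 hn
  obtain ⟨m, rfl⟩ : ∃ m, n = m + 3 := ⟨n - 3, by omega⟩
  have h := aux T h0 h1 m
  have h2 : (0 : ℝ) ≤ if Even (m + 3) then T (m + 3) else 0 := by
    split_ifs
    · exact h0 _
    · exact le_rfl
  linarith

end Pool.Agent.Helper36.KN.AL
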